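import Pool.Agent.Helper45.LGB.St

set_option autoImplicit false

/-!
Project LGB, module EXP: expansion of a word at a localised vector.
-/

namespace Pool.Agent.Helper47.LGB

open Pool.Agent.Helper45.LGB

private theorem ad_snoc {p : ℕ} {ι V : Type} [AddCommGroup V] [Module (ZMod p) V]
    (f : ι → Module.End (ZMod p) V) (u : List ι) (y : ι) (ν : Module.End (ZMod p) V) :
    ad f (u ++ [y]) ν = cb (f y) (ad f u ν) := by
  unfold ad
  rw [List.foldl_append]
  rfl

/-- A linear map which maps the generators into a submodule maps the span into it. -/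
private theorem span_map_mem {p : ℕ} {V : Type} [AddCommGroup V] [Module (ZMod p) V]
    (A : Module.End (ZMod p) V) (s : Set V) (N : Submodule (ZMod p) V)
    (h : ∀ z ∈ s, A z ∈ N) (z : V) (hz : z ∈ Submodule.span (ZMod p) s) : A z ∈ N := by
  have h1 : Submodule.span (ZMod p) s ≤ N.comap A := Submodule.span_le.mpr h
  exact h1 hz

private theorem leibniz {p : ℕ} {ι V : Type} [AddCommGroup V] [Module (ZMod p) V]
    (f : ι → Module.End (ZMod p) V) (Y S : Set ι) (v : V) (y : ι) (hy : y ∈ Y) (hyS : y ∉ S)
    (ss : List ι) : ∀ us : List (List ι), us.length = ss.length →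
    (∀ u' ∈ us, ∀ i ∈ u', i ∈ Y ∧ i ∉ S) →
    f y ((List.zipWith (fun u s => ad f u (f s)) us ss).prod v) -
      (List.zipWith (fun u s => ad f u (f s)) us ss).prod (f y v) ∈
    Submodule.span (ZMod p) {z | ∃ us' : List (List ι), us'.length = ss.length ∧
      (∀ u' ∈ us', ∀ i ∈ u', i ∈ Y ∧ i ∉ S) ∧
      (∀ i, (∃ u ∈ us, i ∈ u) → ∃ u' ∈ us', i ∈ u') ∧ (∃ u' ∈ us', y ∈ u') ∧
      z = (List.zipWith (fun u s => ad f u (f s)) us' ss).prod v} := by
  induction ss with
  | nil =>
    intro us hus _
    have : us = [] := List.length_eq_zero_iff.mp hus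
    subst this
    simp
  | cons s ss ih =>
    intro us hus hu
    cases us with
    | nil => simp at hus
    | cons u us =>
      have hus' : us.length = ss.length := by simpa using hus
      have hu1 : ∀ i ∈ u, i ∈ Y ∧ i ∉ S := hu u (by simp)
      have hu2 : ∀ u' ∈ us, ∀ i ∈ u', i ∈ Y ∧ i ∉ S := fun u' hu' => hu u' (by simp [hu'])
      have hI := ih us hus' hu2
      set A := ad f u (f s) with hA
      set P := (List.zipWith (fun u s => ad f u (f s)) us ss).prod with hP
      have e : f y ((List.zipWith (fun u s => ad f u (f s)) (u :: us) (s :: ss)).prod v) -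
          (List.zipWith (fun u s => ad f u (f s)) (u :: us) (s :: ss)).prod (f y v) =
          (cb (f y) A) (P v) + A (f y (P v) - P (f y v)) := by
        simp only [List.zipWith_cons_cons, List.prod_cons, ← hA, ← hP, cb, Module.End.mul_apply,
          LinearMap.sub_apply, map_sub]
        abel
      rw [e]
      refine Submodule.add_mem _ (Submodule.subset_span ?_) (span_map_mem A _ _ ?_ _ hI)
      · refine ⟨(u ++ [y]) :: us, by simp [hus'], ?_, ?_, ⟨u ++ [y], by simp, by simp⟩, ?_⟩
        · intro u' hu' i hi
          rcases List.mem_cons.mp hu' with h | h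
          · subst h
            rcases List.mem_append.mp hi with h1 | h1
            · exact hu1 i h1
            · have : i = y := by simpa using h1
              subst this
              exact ⟨hy, hyS⟩
          · exact hu2 u' h i hi
        · rintro i ⟨u', hu', hi⟩
          rcases List.mem_cons.mp hu' with h | h
          · subst h
            exact ⟨u' ++ [y], by simp, by simp [hi]⟩
          · exact ⟨u', by simp [h], hi⟩
        · rw [List.zipWith_cons_cons, List.prod_cons, Module.End.mul_apply, ad_snoc]
      · rintro z ⟨us', h1, h2, h3, ⟨w', hw', hyw⟩, h5⟩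
        refine Submodule.subset_span ⟨u :: us', by simp [h1], ?_, ?_,
          ⟨w', by simp [hw'], hyw⟩, ?_⟩
        · intro u' hu' i hi
          rcases List.mem_cons.mp hu' with h | h
          · subst h
            exact hu1 i hi
          · exact h2 u' h i hi
        · rintro i ⟨u', hu', hi⟩
          rcases List.mem_cons.mp hu' with h | h
          · subst h
            exact ⟨u', by simp, hi⟩
          · obtain ⟨u'', hu'', hi''⟩ := h3 i ⟨u', h, hi⟩
            exact ⟨u'', by simp [hu''], hi''⟩
        · rw [List.zipWith_cons_cons, List.prod_cons, Module.End.mul_apply, h5]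

private theorem zip_mem {p : ℕ} {ι V : Type} [AddCommGroup V] [Module (ZMod p) V]
    (f : ι → Module.End (ZMod p) V) (W' : Submodule (ZMod p) V)
    (us : List (List ι)) : ∀ ss : List ι,
    (∀ s ∈ ss, ∀ u' ∈ us, ∀ w ∈ W', (ad f u' (f s)) w ∈ W') → ∀ w ∈ W',
    (List.zipWith (fun u s => ad f u (f s)) us ss).prod w ∈ W' := by
  induction us with
  | nil => intro ss _ w hw; simpa using hw
  | cons u us ih =>
    intro ss h w hw
    cases ss with
    | nil => simpa using hw
    | cons s ss =>
      rw [List.zipWith_cons_cons, List.prod_cons, Module.End.mul_apply]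
      exact h s (by simp) u (by simp) _
        (ih ss (fun s' hs' u' hu' => h s' (by simp [hs']) u' (by simp [hu'])) w hw)

theorem hEXP (hLST : StLST) : StEXP := by
  intro p ι V _ _ f Y S W' v hW hv w
  induction w using List.reverseRecOn with
  | nil =>
    intro _
    refine Submodule.mem_sup_left (Submodule.subset_span ⟨[], [], rfl, ?_, ?_, ?_, ?_⟩)
    · intro s hs; simp at hs
    · intro s hs; simp at hs
    · intro s hs; simp at hs
    · simp [act]
  | append_singleton w y ih =>
    intro hw
    obtain ⟨l1, -, -, -, l5, l6, -⟩ := hLST p ι V f Y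
    have hy : y ∈ Y := hw y (by simp)
    have hI := ih fun i hi => hw i (by simp [hi])
    rw [l6]
    change f y (act f w v) ∈ _
    obtain ⟨a, ha, b, hb, hab⟩ := Submodule.mem_sup.mp hI
    rw [← hab, map_add]
    refine Submodule.add_mem _ (span_map_mem (f y) _ _ ?_ a ha)
      (Submodule.mem_sup_right (hW y hy b hb))
    rintro z ⟨ss, us, h1, h2, h3, h4, rfl⟩
    by_cases hyS : y ∈ S
    · refine Submodule.mem_sup_left (Submodule.subset_span ⟨y :: ss, [] :: us, by simp [h1],
        ?_, ?_, ?_, ?_⟩)
      · intro s hs
        rcases List.mem_cons.mp hs with h | h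
        · subst h
          exact ⟨hy, hyS⟩
        · exact h2 s h
      · intro u' hu' i hi
        rcases List.mem_cons.mp hu' with h | h
        · subst h
          simp at hi
        · exact h3 u' h i hi
      · intro i hi
        rcases List.mem_append.mp hi with h | h
        · rcases h4 i h with h' | ⟨u', hu', hi'⟩
          · exact Or.inl h'
          · exact Or.inr ⟨u', by simp [hu'], hi'⟩
        · have : i = y := by simpa using h
          subst this
          exact Or.inl hyS
      · rw [List.zipWith_cons_cons, List.prod_cons, Module.End.mul_apply]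
        rfl
    · have hL := leibniz f Y S v y hy hyS ss us h1 h3
      have hM : (List.zipWith (fun u s => ad f u (f s)) us ss).prod (f y v) ∈ W' := by
        refine zip_mem f W' us ss (fun s hs u' hu' w' hw' => ?_) _ (hv y hy hyS)
        exact l1 W' hW _ (l5 u' (f s) (fun i hi => (h3 u' hu' i hi).1) (Lam.gen s (h2 s hs).1))
          w' hw'
      have e : f y ((List.zipWith (fun u s => ad f u (f s)) us ss).prod v) =
          (f y ((List.zipWith (fun u s => ad f u (f s)) us ss).prod v) -
            (List.zipWith (fun u s => ad f u (f s)) us ss).prod (f y v)) +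
          (List.zipWith (fun u s => ad f u (f s)) us ss).prod (f y v) := by abel
      rw [e]
      refine Submodule.add_mem _ (Submodule.mem_sup_left ?_) (Submodule.mem_sup_right hM)
      refine Submodule.span_mono ?_ hL
      rintro z ⟨us', g1, g2, g3, ⟨u0, hu0, hy0⟩, g5⟩
      refine ⟨ss, us', g1, h2, g2, ?_, g5⟩
      intro i hi
      rcases List.mem_append.mp hi with h | h
      · rcases h4 i h with h' | h'
        · exact Or.inl h'
        · exact Or.inr (g3 i h')
      · have : i = y := by simpa using h
        subst this
        exact Or.inr ⟨u0, hu0, hy0⟩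

end Pool.Agent.Helper47.LGB
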